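import Mathlib
import Pool.Agent.Y605.BX.Hard

/-!
# BOXICITY is NP-hard on graphs that are a few vertices away from a disjoint union of paths

The graphs of the reduction from bin packing consist of ten vertices and disjoint paths; every two
nonadjacent vertices that are joined to everything else raise the boxicity by exactly one.
-/

set_option autoImplicit false

namespace Pool.Agent.Results.MP_33ea09_lc.NearLinearForests

open Pool.Agent.NPC Pool.Agent.H692R2 Pool.Agent.TH656.Bx Pool.Agent.Y605.BX

/-- Let `d ≥ 4` be a fixed dimension. Every language `L` in NP has a polynomial-time reduction to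
graphs that become disjoint unions of paths when `2 d + 2` vertices are deleted (so their feedback
vertex number is at most `2 d + 2`, their pathwidth and their treewidth are at most `2 d + 3`), such
that the boxicity is at most `d` for the members of `L` and equal to `d + 1` for all other words.
Hence it is NP-hard to decide whether the boxicity of such graphs is at most `d`. -/
theorem result : ∀ d : ℕ, 4 ≤ d →
    (∀ L : Set (List Bool), InNP L → ∃ f : List Bool → FinGraph, PolyTime (fun x => bits (f x)) ∧
      ∀ x, NearPaths (f x).graph (2 * d + 2) ∧ pathwidth (f x).graph ≤ 2 * d + 3 ∧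
        treewidth (f x).graph ≤ 2 * d + 3 ∧ (x ∈ L → boxicity (f x).graph ≤ d) ∧
        (x ∉ L → boxicity (f x).graph = d + 1)) ∧
    ∀ k : ℕ, 2 * d + 2 ≤ k →
      NPHardP (fun G : FinGraph => NearPaths G.graph k ∧ boxicity G.graph ≤ d) :=
  fun d hd => ⟨reduction d hd, hard_near d hd⟩

end Pool.Agent.Results.MP_33ea09_lc.NearLinearForests
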